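import Mathlib

set_option autoImplicit false

open Complex

namespace Pool.Agent.Lib.MP_3e1590_mp

/-- A vector of (C^2)^{tensor 3}, given by its amplitudes in the computational basis. -/
abbrev State : Type := (Fin 3 → Fin 2) → ℂ

/-- The observable n . sigma = n0 X + n1 Y + n2 Z. -/
noncomputable def obs (n : Fin 3 → ℝ) : Matrix (Fin 2) (Fin 2) ℂ :=
  (n 0 : ℂ) • !![0, 1; 1, 0] + (n 1 : ℂ) • !![0, -I; I, 0] + (n 2 : ℂ) • !![1, 0; 0, -1]

/-- The projector (1 + (-1)^a n . sigma) / 2 for outcome a of the measurement n . sigma. -/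
noncomputable def proj (n : Fin 3 → ℝ) (a : Fin 2) : Matrix (Fin 2) (Fin 2) ℂ :=
  (1 / 2 : ℂ) • (1 + ((-1 : ℂ) ^ (a : ℕ)) • obs n)

/-- The operator T0 tensor T1 tensor T2 applied to a state. -/
noncomputable def act (T : Fin 3 → Matrix (Fin 2) (Fin 2) ℂ) (ψ : State) : State :=
  fun x => ∑ y, (∏ i, T i (x i) (y i)) * ψ y

/-- Born probability of the joint outcome o in the context A. -/
noncomputable def born (ψ : State) (A : Fin 3 → Fin 3 → ℝ) (o : Fin 3 → Fin 2) : ℂ :=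
  ∑ x, star (ψ x) * act (fun i => proj (A i) (o i)) ψ x

/-- No global assignment of outcomes is possible in every context. -/
def IsParadox (ψ : State) (M : Fin 3 → Finset (Fin 3 → ℝ)) : Prop :=
  ¬ ∃ g : Fin 3 → (Fin 3 → ℝ) → Fin 2,
    ∀ A : Fin 3 → Fin 3 → ℝ, (∀ i, A i ∈ M i) → born ψ A (fun i => g i (A i)) ≠ 0

/-- The basis vector |abc>. -/
noncomputable def ket (a b c : Fin 2) : State := Pi.single ![a, b, c] 1

/-- The interpolant state B_l. -/
noncomputable def interp (l : ℝ) : State :=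
  ((1 / Real.sqrt 2 : ℝ) : ℂ) •
    ((Real.cos (l / 2) : ℂ) • (ket 0 0 0 + ket 1 1 1) +
      (Real.sin (l / 2) : ℂ) • (ket 0 0 1 + ket 1 1 0))

end Pool.Agent.Lib.MP_3e1590_mp
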