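import Mathlib
import Pool.Agent.Lib.MP_3e1590_mp.Defs

set_option autoImplicit false

open Complex Matrix

namespace Pool.Agent.Lib.MP_3e1590_mp

/-- sum of two product vectors -/
noncomputable def two (k : ℂ) (v w : Fin 3 → Fin 2 → ℂ) : State :=
  fun x => k * (∏ i, v i (x i) + ∏ i, w i (x i))

theorem act_prod (T : Fin 3 → Matrix (Fin 2) (Fin 2) ℂ) (v : Fin 3 → Fin 2 → ℂ)
    (x : Fin 3 → Fin 2) :
    ∑ y : Fin 3 → Fin 2, (∏ i, T i (x i) (y i)) * ∏ i, v i (y i) = ∏ i, (T i *ᵥ v i) (x i) := by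
  simp only [mulVec, dotProduct]
  rw [Finset.prod_univ_sum, Fintype.piFinset_univ]
  refine Finset.sum_congr rfl fun y _ => ?_
  rw [Finset.prod_mul_distrib]

theorem act_two (T : Fin 3 → Matrix (Fin 2) (Fin 2) ℂ) (k : ℂ) (v w : Fin 3 → Fin 2 → ℂ) :
    act T (two k v w) = two k (fun i => T i *ᵥ v i) (fun i => T i *ᵥ w i) := by
  ext x
  simp only [act, two]
  rw [← act_prod, ← act_prod, ← Finset.sum_add_distrib, Finset.mul_sum]
  refine Finset.sum_congr rfl fun y _ => ?_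
  ring

theorem two_perm (k : ℂ) (v w : Fin 3 → Fin 2 → ℂ) (σ : Equiv.Perm (Fin 3)) :
    (fun x => two k v w (x ∘ σ)) = two k (fun j => v (σ.symm j)) (fun j => w (σ.symm j)) := by
  ext x
  simp only [two, Function.comp]
  rw [← Equiv.prod_comp σ (fun j => v (σ.symm j) (x j)),
    ← Equiv.prod_comp σ (fun j => w (σ.symm j) (x j))]
  simp

theorem two_eq_zero (k : ℂ) (v w : Fin 3 → Fin 2 → ℂ) (a : Fin 3 → ℂ)
    (h : ∀ i, w i = a i • v i) (ha : a 0 * a 1 * a 2 = -1) : two k v w = 0 := by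
  ext x
  simp only [two, h, Fin.prod_univ_three, Pi.smul_apply, smul_eq_mul, Pi.zero_apply]
  linear_combination k * (v 0 (x 0) * v 1 (x 1) * v 2 (x 2)) * ha

theorem sum_cube {β : Type*} [AddCommMonoid β] (f : (Fin 3 → Fin 2) → β) :
    ∑ x, f x = ∑ a : Fin 2, ∑ b : Fin 2, ∑ c : Fin 2, f ![a, b, c] := by
  let e : (Fin 2 × Fin 2 × Fin 2) ≃ (Fin 3 → Fin 2) :=
    { toFun := fun p => ![p.1, p.2.1, p.2.2]
      invFun := fun x => (x 0, x 1, x 2)
      left_inv := fun p => by simp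
      right_inv := fun x => by ext i; fin_cases i <;> simp }
  rw [← e.sum_comp, Fintype.sum_prod_type]
  simp only [Fintype.sum_prod_type]
  rfl

noncomputable def r : ℝ := Real.sqrt 2
noncomputable def s : ℝ := r - 1
noncomputable def c : ℝ := Real.sqrt (2 * r - 2)

theorem r_sq : r ^ 2 = 2 := Real.sq_sqrt (by norm_num)
theorem one_lt_r : 1 < r := by
  unfold r
  rw [Real.lt_sqrt (by norm_num)]; norm_num
theorem s_pos : 0 < s := by unfold s; linarith [one_lt_r]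
theorem c_sq : c ^ 2 = 2 * r - 2 := Real.sq_sqrt (by linarith [one_lt_r])
theorem r_sqC : (r : ℂ) ^ 2 = 2 := by exact_mod_cast r_sq
theorem c_sqC : (c : ℂ) ^ 2 = 2 * r - 2 := by exact_mod_cast c_sq

noncomputable def vv : Fin 3 → Fin 2 → ℂ := fun _ => ![1, 0]
noncomputable def ww : Fin 3 → Fin 2 → ℂ := ![![0, 1], ![(s : ℂ), c], ![(s : ℂ), c]]
noncomputable def psi : State := two ((r / 2 : ℝ) : ℂ) vv ww

noncomputable def n1 : Fin 4 → Fin 3 → ℝ :=
  ![![1, 0, 0], ![r / 2, -(r / 2), 0], ![0, -1, 0], ![-(r / 2), -(r / 2), 0]]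
noncomputable def n2 : Fin 3 → Fin 3 → ℝ :=
  ![![c, 0, s], ![-(c * s), c, -(s ^ 2)], ![-(c * s), -c, -(s ^ 2)]]

def l1 : Fin 4 → Fin 2 → ℕ := ![![0, 4], ![1, 5], ![2, 6], ![3, 7]]
def l2 : Fin 3 → Fin 2 → ℕ := ![![0, 4], ![6, 1], ![2, 7]]

noncomputable def z : ℂ := (r / 2 : ℂ) * (1 + I)

theorem z2 : z ^ 2 = I := by
  unfold z
  linear_combination (1 + I) ^ 2 / 4 * r_sqC + (1 / 2 : ℂ) * I_sq
theorem z3 : z ^ 3 = (r / 2 : ℂ) * (-1 + I) := by
  rw [pow_succ, z2]; unfold z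
  linear_combination (r / 2 : ℂ) * I_sq
theorem z4 : z ^ 4 = -1 := by
  rw [show 4 = 2 * 2 from rfl, pow_mul, z2, I_sq]
theorem z5 : z ^ 5 = -((r / 2 : ℂ) * (1 + I)) := by
  rw [pow_succ, z4]; unfold z; ring
theorem z6 : z ^ 6 = -I := by
  rw [show 6 = 4 + 2 from rfl, pow_add, z4, z2]; ring
theorem z7 : z ^ 7 = (r / 2 : ℂ) * (1 - I) := by
  rw [show 7 = 4 + 3 from rfl, pow_add, z4, z3]; ring
theorem z8 : z ^ 8 = 1 := by
  rw [show 8 = 4 * 2 from rfl, pow_mul, z4]; norm_num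

theorem proj_zero (n : Fin 3 → ℝ) : proj n 0 =
    !![(1 + (n 2 : ℂ)) / 2, (n 0 - I * n 1) / 2; (n 0 + I * n 1) / 2, (1 - (n 2 : ℂ)) / 2] := by
  ext i j
  fin_cases i <;> fin_cases j <;> simp [proj, obs] <;> ring

theorem proj_one (n : Fin 3 → ℝ) : proj n 1 =
    !![(1 - (n 2 : ℂ)) / 2, -(n 0 - I * n 1) / 2; -(n 0 + I * n 1) / 2, (1 + (n 2 : ℂ)) / 2] := by
  ext i j
  fin_cases i <;> fin_cases j <;> simp [proj, obs] <;> ring

theorem key1 (k : Fin 4) (o : Fin 2) :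
    proj (n1 k) o *ᵥ ![0, 1] = z ^ (l1 k o) • (proj (n1 k) o *ᵥ ![1, 0]) := by
  have h2 := r_sqC
  have hI := I_sq
  fin_cases k <;> fin_cases o <;> ext j <;> fin_cases j <;>
    simp [proj_zero, proj_one, n1, l1, z2, z3, z4, z5, z6, z7, mulVec, dotProduct,
      Fin.sum_univ_two] <;> (try unfold z) <;> grind

theorem key2 (k : Fin 3) (o : Fin 2) :
    proj (n2 k) o *ᵥ ![(s : ℂ), c] = z ^ (l2 k o) • (proj (n2 k) o *ᵥ ![1, 0]) := by
  have h2 := r_sqC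
  have h3 := c_sqC
  have hI := I_sq
  fin_cases k <;> fin_cases o <;> ext j <;> fin_cases j <;>
    simp [proj_zero, proj_one, n2, l2, z2, z4, z6, z7, mulVec, dotProduct,
      Fin.sum_univ_two, s] <;> (try unfold z) <;> grind

theorem comb : ∀ (b1 : Fin 4 → Fin 2) (b2 b3 : Fin 3 → Fin 2),
    ∃ i j k, (l1 i (b1 i) + l2 j (b2 j) + l2 k (b3 k)) % 8 = 4 := by
  decide +kernel

noncomputable def MM : Fin 3 → Finset (Fin 3 → ℝ) := by
  classical
  exact ![Finset.univ.image n1, Finset.univ.image n2, Finset.univ.image n2]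

theorem paradox : IsParadox psi MM := by
  rintro ⟨g, hg⟩
  obtain ⟨i, j, k, h⟩ := comb (fun i => g 0 (n1 i)) (fun j => g 1 (n2 j)) (fun k => g 2 (n2 k))
  refine hg ![n1 i, n2 j, n2 k] ?_ ?_
  · intro t
    fin_cases t <;> simp [MM]
  · unfold born psi
    rw [act_two, two_eq_zero _ (fun t => _ *ᵥ vv t) _
      ![z ^ l1 i (g 0 (n1 i)), z ^ l2 j (g 1 (n2 j)), z ^ l2 k (g 2 (n2 k))]]
    · simp
    · intro t
      fin_cases t
      · exact key1 i _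
      · exact key2 j _
      · exact key2 k _
    · simp only [cons_val_zero, cons_val_one, cons_val]
      rw [← pow_add, ← pow_add, ← Nat.div_add_mod (_ + _ + _) 8, h, pow_add, pow_mul, z8, one_pow,
        one_mul, z4]

theorem MM_ok (i : Fin 3) : (MM i).Nonempty ∧ ∀ n ∈ MM i, ∑ k, n k ^ 2 = 1 := by
  have h2 := r_sq
  have h3 := c_sq
  have a1 : ∀ t, ∑ k, n1 t k ^ 2 = 1 := by
    intro t
    fin_cases t <;> simp [n1, Fin.sum_univ_three] <;> grind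
  have a2 : ∀ t, ∑ k, n2 t k ^ 2 = 1 := by
    intro t
    fin_cases t <;> simp [n2, Fin.sum_univ_three, s] <;> grind
  fin_cases i <;> simp [MM, a1, a2]

theorem psi_norm : ∑ x, ‖psi x‖ ^ 2 = 1 := by
  have h2 := r_sq
  have h3 := c_sq
  rw [sum_cube]
  simp [psi, two, vv, ww, Fin.sum_univ_two, Fin.prod_univ_three, mul_pow, div_pow, s]
  have e : ‖(r : ℂ) - 1‖ ^ 2 = (r - 1) ^ 2 := by
    rw [show (r : ℂ) - 1 = ((r - 1 : ℝ) : ℂ) by push_cast; ring, Complex.norm_real,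
      Real.norm_eq_abs, sq_abs]
  rw [e]
  grind

/-- reduced density matrix of the first qubit -/
noncomputable def rho (ψ : State) (a a' : Fin 2) : ℂ :=
  ∑ b : Fin 2, ∑ d : Fin 2, ψ ![a, b, d] * star (ψ ![a', b, d])

theorem rho_interp (l : ℝ) (a a' : Fin 2) : rho (interp l) a a' = if a = a' then 1 / 2 else 0 := by
  have h : ((Real.sin (l / 2) : ℝ) : ℂ) ^ 2 + ((Real.cos (l / 2) : ℝ) : ℂ) ^ 2 = 1 := by
    exact_mod_cast Real.sin_sq_add_cos_sq (l / 2)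
  have h2 : ((Real.sqrt 2 : ℝ) : ℂ) ^ 2 = 2 := r_sqC
  have h3 : ((Real.sqrt 2 : ℝ) : ℂ) ≠ 0 := by
    intro h0; rw [h0] at h2; norm_num at h2
  unfold rho interp
  generalize Real.sin (l / 2) = S at *
  generalize Real.cos (l / 2) = C at *
  fin_cases a <;> fin_cases a' <;>
    simp [ket, Fin.sum_univ_two, Pi.single_apply] <;> field_simp <;> grind

theorem unitary_inner (U : Matrix.unitaryGroup (Fin 2) ℂ) (x y : Fin 2 → ℂ) :
    star ((U : Matrix (Fin 2) (Fin 2) ℂ) *ᵥ x) ⬝ᵥ ((U : Matrix (Fin 2) (Fin 2) ℂ) *ᵥ y)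
      = star x ⬝ᵥ y := by
  rw [star_mulVec, ← dotProduct_mulVec, mulVec_mulVec]
  have : (U : Matrix (Fin 2) (Fin 2) ℂ)ᴴ * (U : Matrix (Fin 2) (Fin 2) ℂ) = 1 :=
    U.2.1
  rw [this, one_mulVec]

/-- the inner products of the two branches -/
noncomputable def ip : Fin 3 → ℝ := ![0, s, s]

theorem vv_vv (j : Fin 3) : star (vv j) ⬝ᵥ vv j = 1 := by
  simp [vv, dotProduct, Fin.sum_univ_two]
theorem ww_ww (j : Fin 3) : star (ww j) ⬝ᵥ ww j = 1 := by
  have h2 := r_sqC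
  have h3 := c_sqC
  fin_cases j <;> simp [ww, dotProduct, Fin.sum_univ_two, s] <;> grind
theorem vv_ww (j : Fin 3) : star (vv j) ⬝ᵥ ww j = ip j := by
  fin_cases j <;> simp [vv, ww, ip, dotProduct, Fin.sum_univ_two]
theorem ww_vv (j : Fin 3) : star (ww j) ⬝ᵥ vv j = ip j := by
  fin_cases j <;> simp [vv, ww, ip, dotProduct, Fin.sum_univ_two]

theorem rho_two (k : ℂ) (a b : Fin 3 → Fin 2 → ℂ) (u : Fin 3 → ℂ)
    (haa : ∀ j, star (a j) ⬝ᵥ a j = 1) (hbb : ∀ j, star (b j) ⬝ᵥ b j = 1)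
    (hab : ∀ j, star (a j) ⬝ᵥ b j = u j) (hba : ∀ j, star (b j) ⬝ᵥ a j = u j) (x x' : Fin 2) :
    rho (two k a b) x x' = k * star k * (a 0 x * star (a 0 x') + b 0 x * star (b 0 x') +
      u 1 * u 2 * (a 0 x * star (b 0 x') + b 0 x * star (a 0 x'))) := by
  have e : rho (two k a b) x x' = k * star k * (
      a 0 x * star (a 0 x') * (star (a 1) ⬝ᵥ a 1) * (star (a 2) ⬝ᵥ a 2) +
      b 0 x * star (b 0 x') * (star (b 1) ⬝ᵥ b 1) * (star (b 2) ⬝ᵥ b 2) +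
      a 0 x * star (b 0 x') * (star (b 1) ⬝ᵥ a 1) * (star (b 2) ⬝ᵥ a 2) +
      b 0 x * star (a 0 x') * (star (a 1) ⬝ᵥ b 1) * (star (a 2) ⬝ᵥ b 2)) := by
    simp [rho, two, Fin.sum_univ_two, Fin.prod_univ_three, dotProduct]
    ring
  rw [e, haa, haa, hbb, hbb, hab, hab, hba, hba]
  ring

theorem ip_facts (σ : Equiv.Perm (Fin 3)) :
    ip (σ 0) * (ip (σ 1) * ip (σ 2)) = 0 ∧ ip (σ 0) + ip (σ 1) * ip (σ 2) ≠ 0 := by
  have hs := s_pos
  have h01 : σ 0 ≠ σ 1 := σ.injective.ne (by decide)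
  have h02 : σ 0 ≠ σ 2 := σ.injective.ne (by decide)
  have h12 : σ 1 ≠ σ 2 := σ.injective.ne (by decide)
  generalize σ 0 = a at *
  generalize σ 1 = b at *
  generalize σ 2 = d at *
  fin_cases a <;> fin_cases b <;> fin_cases d <;> simp_all [ip] <;> linarith

theorem not_equiv (l : ℝ) (U : Fin 3 → Matrix.unitaryGroup (Fin 2) ℂ) (σ : Equiv.Perm (Fin 3))
    (κ : ℂ) (hκ : ‖κ‖ = 1) :
    κ • act (fun i => (U i : Matrix (Fin 2) (Fin 2) ℂ)) (fun x => psi (x ∘ σ)) ≠ interp l := by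
  intro h
  unfold psi at h
  rw [two_perm, act_two] at h
  set a : Fin 3 → Fin 2 → ℂ := fun j => (U j : Matrix (Fin 2) (Fin 2) ℂ) *ᵥ vv (σ.symm j) with ha
  set b : Fin 3 → Fin 2 → ℂ := fun j => (U j : Matrix (Fin 2) (Fin 2) ℂ) *ᵥ ww (σ.symm j) with hb
  have h' : two (κ * ((r / 2 : ℝ) : ℂ)) a b = interp l := by
    rw [← h]; ext x; simp only [two, Pi.smul_apply, smul_eq_mul]; ring
  have haa : ∀ j, star (a j) ⬝ᵥ a j = 1 := fun j => by rw [ha]; simp only [unitary_inner, vv_vv]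
  have hbb : ∀ j, star (b j) ⬝ᵥ b j = 1 := fun j => by rw [hb]; simp only [unitary_inner, ww_ww]
  have hab : ∀ j, star (a j) ⬝ᵥ b j = (ip (σ.symm j) : ℂ) := fun j => by
    rw [ha, hb]; simp only [unitary_inner, vv_ww]
  have hba : ∀ j, star (b j) ⬝ᵥ a j = (ip (σ.symm j) : ℂ) := fun j => by
    rw [ha, hb]; simp only [unitary_inner, ww_vv]
  have hk : (κ * ((r / 2 : ℝ) : ℂ)) * star (κ * ((r / 2 : ℝ) : ℂ)) = 1 / 2 := by
    have h1 : κ * star κ = 1 := by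
      rw [Complex.star_def, Complex.mul_conj, Complex.normSq_eq_norm_sq, hκ]; simp
    have h2 := r_sqC
    simp only [star_mul', Complex.star_def, Complex.conj_ofReal] at h1 ⊢
    push_cast
    grind
  have R := fun x x' => rho_two (κ * ((r / 2 : ℝ) : ℂ)) a b (fun j => (ip (σ.symm j) : ℂ))
    haa hbb hab hba x x'
  rw [h', hk] at R
  simp only [rho_interp] at R
  obtain ⟨f1, f2⟩ := ip_facts σ.symm
  have g1 : (ip (σ.symm 0) : ℂ) * ((ip (σ.symm 1) : ℂ) * (ip (σ.symm 2) : ℂ)) = 0 := by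
    exact_mod_cast f1
  have g2 : (ip (σ.symm 0) : ℂ) + (ip (σ.symm 1) : ℂ) * (ip (σ.symm 2) : ℂ) ≠ 0 := by
    exact_mod_cast f2
  have R00 := R 0 0
  have R01 := R 0 1
  have R10 := R 1 0
  have R11 := R 1 1
  have e1 := haa 0
  have e2 := hbb 0
  have e3 := hab 0
  have e4 := hba 0
  simp only [dotProduct, Fin.sum_univ_two, Pi.star_apply] at e1 e2 e3 e4
  simp only [if_true, zero_ne_one, one_ne_zero, if_false] at R00 R01 R10 R11
  generalize (ip (σ.symm 0) : ℂ) = u at *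
  generalize (ip (σ.symm 1) : ℂ) * (ip (σ.symm 2) : ℂ) = τ at *
  have b0 : (u + τ) * b 0 0 = 0 := by
    linear_combination (-2) * (a 0 0 * R00 + a 0 1 * R01) - (a 0 0 + τ * b 0 0) * e1
      - (b 0 0 + τ * a 0 0) * e4 - a 0 0 * g1
  have b1 : (u + τ) * b 0 1 = 0 := by
    linear_combination (-2) * (a 0 0 * R10 + a 0 1 * R11) - (a 0 1 + τ * b 0 1) * e1
      - (b 0 1 + τ * a 0 1) * e4 - a 0 1 * g1
  rw [(mul_eq_zero.1 b0).resolve_left g2, (mul_eq_zero.1 b1).resolve_left g2] at e2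
  simp at e2

end Pool.Agent.Lib.MP_3e1590_mp
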